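import Mathlib
import Pool.Agent.H85.BigA

namespace Pool.Agent.Results.MP_ac6992_gt.Lamp

open Set Real Filter Topology Pool.Agent.H85.LamA Pool.Agent.H85.BigA
open scoped unitInterval

/-- `f` is isotopic to the identity -/
def IsoToId {S : Type} [TopologicalSpace S] (f : S ≃ₜ S) : Prop :=
  ∃ F : I → S ≃ₜ S, F 0 = 1 ∧ F 1 = f ∧ Continuous (fun p : I × S => F p.1 p.2) ∧
    Continuous fun p : I × S => (F p.1).symm p.2

/-- `Homeo_0(S)` -/
def Homeo0 (S : Type) [TopologicalSpace S] : Subgroup (S ≃ₜ S) where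
  carrier := {f | IsoToId f}
  one_mem' := ⟨fun _ => 1, rfl, rfl, continuous_snd, continuous_snd⟩
  mul_mem' := by
    rintro _ _ ⟨F, h0, rfl, h1, h2⟩ ⟨G, k0, rfl, k1, k2⟩
    exact ⟨fun s => F s * G s, by simp [h0, k0], rfl, h1.comp (continuous_fst.prodMk k1),
      k2.comp (continuous_fst.prodMk h2)⟩
  inv_mem' := by
    rintro _ ⟨F, h0, rfl, h1, h2⟩
    exact ⟨fun s => (F s)⁻¹, by simp [h0], rfl, h2, h1⟩

instance normal (S : Type) [TopologicalSpace S] : (Homeo0 S).Normal := ⟨by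
  rintro _ ⟨F, h0, rfl, h1, h2⟩ g
  exact ⟨fun s => g * F s * g⁻¹, by simp [h0], rfl,
    g.continuous.comp (h1.comp (continuous_fst.prodMk (g.symm.continuous.comp continuous_snd))),
    g.continuous.comp (h2.comp (continuous_fst.prodMk (g.symm.continuous.comp continuous_snd)))⟩⟩

/-- isotopy classes of all homeomorphisms of `S` -/
abbrev Map (S : Type) [TopologicalSpace S] := (S ≃ₜ S) ⧸ Homeo0 S

/-- amenability: a left-invariant finitely additive probability on all subsets -/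
def Amenable (H : Type) [Group H] : Prop :=
  ∃ μ : Set H → ℝ, (∀ A, 0 ≤ μ A) ∧ μ univ = 1 ∧ (∀ A B, Disjoint A B → μ (A ∪ B) = μ A + μ B) ∧
    ∀ g A, μ ((g * ·) ⁻¹' A) = μ A

/-- homogeneous quasimorphisms -/
def IsHQM {H : Type} [Group H] (φ : H → ℝ) : Prop :=
  (∃ D, ∀ g h, |φ (g * h) - φ g - φ h| ≤ D) ∧ ∀ g (n : ℤ), φ (g ^ n) = n * φ g

/-- `C` is a Cantor set -/
def IsCantor {X : Type} [TopologicalSpace X] (C : Set X) : Prop :=
  C.Nonempty ∧ IsCompact C ∧ Perfect C ∧ IsTotallyDisconnected C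

abbrev Pl := ℝ × ℝ

noncomputable def m (d y : ℝ) : ℝ := min 1 (max 0 (|y| - d))

noncomputable def ef (F : ℝ ≃o ℝ) (d : ℝ) (p : Pl) : Pl :=
  (e F p.1 + m d p.2 * (p.1 - e F p.1), p.2)

lemma ef_in (F : ℝ ≃o ℝ) {d : ℝ} {p : Pl} (h : |p.2| ≤ d) : ef F d p = (e F p.1, p.2) := by
  simp [ef, m, h]

lemma ef_out (F : ℝ ≃o ℝ) {d : ℝ} {p : Pl} (h : d + 1 ≤ |p.2| ∨ e F p.1 = p.1) : ef F d p = p := by
  rcases h with h | h
  · simp [ef, m, min_eq_left (le_max_of_le_right (le_sub_iff_add_le'.2 h))]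
  · simp [ef, h]

lemma ef_cont (F : ℝ ≃o ℝ) (d : ℝ) : Continuous (ef F d) := by
  have : Continuous (e F) := (X F).continuous
  unfold ef m; fun_prop

lemma ef_far (F : ℝ ≃o ℝ) {d : ℝ} (hd : 0 ≤ d) {p : Pl} (h : d + 1 < ‖p‖) : ef F d p = p := by
  refine ef_out F ((le_total (d + 1) |p.2|).imp_right fun k => e_out F ?_)
  rw [Prod.norm_def, lt_max_iff, norm_eq_abs, norm_eq_abs, lt_abs] at h
  grind

noncomputable def E (F : ℝ ≃o ℝ) (d : ℝ) (hd : 0 ≤ d) : Pl ≃ₜ Pl :=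
  (Equiv.ofBijective (ef F d) ⟨by
    rintro ⟨x, y⟩ ⟨x', y'⟩ h
    obtain ⟨h1, rfl⟩ : _ ∧ y = y' := Prod.ext_iff.1 h
    have m0 : 0 ≤ m d y := le_min zero_le_one (le_max_left _ _)
    have m1 : m d y ≤ 1 := min_le_left _ _
    have : StrictMono fun x => e F x + m d y * (x - e F x) := fun a b k => by
      have := e_mono F k
      rcases m0.eq_or_lt with k' | k'
      · simpa [← k'] using this
      · beta_reduce; nlinarith [mul_pos k' (sub_pos.2 k), mul_nonneg (sub_nonneg.2 m1) (sub_pos.2 this).le]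
    exact Prod.ext (this.injective h1) rfl, by
    rintro ⟨x, y⟩
    by_cases h : x ≤ 0 ∨ 1 ≤ x
    · exact ⟨_, ef_out F (Or.inr (e_out F h))⟩
    · obtain ⟨z, -, hz⟩ := intermediate_value_Icc zero_le_one (f := fun x => (ef F d (x, y)).1)
        ((ef_cont F d).comp (Continuous.prodMk_left y)).fst.continuousOn (show x ∈ _ by
          simp only [ef_out F (p := (0, y)) (Or.inr (e_out F (Or.inl le_rfl))),
            ef_out F (p := (1, y)) (Or.inr (e_out F (Or.inr le_rfl)))]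
          constructor <;> grind)
      exact ⟨(z, y), Prod.ext hz rfl⟩⟩).toHomeomorphOfContinuousClosed (ef_cont F d)
    (isProperMap_iff_tendsto_cocompact.2 ⟨ef_cont F d, tendsto_id.congr'
      ((tendsto_norm_cocompact_atTop (E := Pl)).eventually (eventually_gt_atTop (d + 1)) |>.mono
        fun _ h => (ef_far F hd h).symm)⟩).isClosedMap

lemma E_ap (F : ℝ ≃o ℝ) (d : ℝ) (hd : 0 ≤ d) (p : Pl) : E F d hd p = ef F d p := rfl

def K : Set ℝ := Φ (Φ cantorSet)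

lemma K_gd : Gd K := c_gd.phi.phi

def C : Set Pl := {p | p.2 = 0 ∧ p.1 ∈ K}

lemma isCantor : IsCantor C := by
  have e : C = (fun x => (x, 0)) '' K := by
    ext ⟨x, y⟩
    exact ⟨fun ⟨h1, h2⟩ => ⟨x, h2, Prod.ext rfl h1.symm⟩, by rintro ⟨z, hz, ⟨⟩⟩; exact ⟨rfl, hz⟩⟩
  have hc : IsCompact C := e ▸ (isCompact_Icc.of_isClosed_subset K_gd.cl K_gd.sub).image (by fun_prop)
  refine ⟨⟨(0, 0), rfl, K_gd.zero⟩, hc, ⟨hc.isClosed, ?_⟩, ?_⟩
  · rintro ⟨x, y⟩ ⟨rfl : y = 0, hx⟩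
    exact accPt_iff_frequently.2 (((Continuous.prodMk_left (0 : ℝ)).tendsto x).frequently
      ((K_gd.pp x hx).mono fun z hz => ⟨fun e => hz.1 (congrArg Prod.fst e), rfl, hz.2⟩))
  · rw [e, (isEmbedding_prodMkLeft (0 : ℝ)).isTotallyDisconnected_image]
    intro t ht hp
    have : ∀ x ∈ t, ∀ y ∈ t, ¬ x < y := fun x hx y hy h => by
      obtain ⟨w, h1, h2, h3⟩ := K_gd.gap x y h
      exact h3 (ht (hp.Icc_subset hx hy ⟨h1.le, h2.le⟩))
    exact fun x hx y hy => le_antisymm (not_lt.1 (this y hy x hx)) (not_lt.1 (this x hx y hy))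

def Pres (f : Pl ≃ₜ Pl) : Prop := (∀ p, f p ∈ C ↔ p ∈ C) ∧ ∃ R, ∀ p, R < ‖p‖ → f p = p

lemma E_pres {F : ℝ ≃o ℝ} (h : Inv K (e F)) (d : ℝ) (hd : 0 ≤ d) : Pres (E F d hd) := by
  refine ⟨fun p => and_congr_right fun k : p.2 = 0 => ?_, d + 1, fun p => ef_far F hd⟩
  rw [E_ap, ef_in F (by simpa [k] using hd), h]

def St : Subgroup (Pl ≃ₜ Pl) where
  carrier := {f | Pres f}
  one_mem' := ⟨fun _ => Iff.rfl, 0, fun _ _ => rfl⟩
  mul_mem' := fun ⟨h1, R, h2⟩ ⟨k1, R', k2⟩ => ⟨fun p => (h1 _).trans (k1 p), max R R', fun p h =>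
    (congrArg _ (k2 p ((le_max_right _ _).trans_lt h))).trans (h2 p ((le_max_left _ _).trans_lt h))⟩
  inv_mem' := fun {f} ⟨h1, R, h2⟩ => ⟨fun p => by rw [← h1]; simp,
    R, fun p h => f.symm_apply_eq.2 (h2 p h).symm⟩

noncomputable def T : St := ⟨E τ 1 zero_le_one, E_pres (inv_phi (τ_inv _)) _ _⟩
noncomputable def A (F : ℝ ≃o ℝ) (h : Inv (P cantorSet) F) : St :=
  ⟨E (X F) 0 le_rfl, E_pres (inv_phi (inv_P c_gd.phi (inv_phi h))) _ _⟩

lemma T_ap (z : ℝ) {y : ℝ} (h : |y| ≤ 1) : T.1 (sigmoid z, y) = (sigmoid (z + 2), y) :=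
  (ef_in τ h).trans (by rw [e_sig, τ_ap])

lemma T_pow (j : ℤ) (z : ℝ) {y : ℝ} (h : |y| ≤ 1) :
    (T ^ j).1 (sigmoid z, y) = (sigmoid (z + 2 * j), y) := by
  induction j using Int.induction_on generalizing z with
  | zero => simp
  | succ j ih =>
    rw [zpow_add_one, Subgroup.coe_mul, Homeomorph.mul_apply, T_ap z h, ih]; congr 2; push_cast; ring
  | pred j ih =>
    have : T⁻¹.1 (sigmoid z, y) = (sigmoid (z - 2), y) :=
      T.1.symm_apply_eq.2 (by rw [T_ap _ h, sub_add_cancel])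
    rw [zpow_sub_one, Subgroup.coe_mul, Homeomorph.mul_apply, this, ih]; congr 2; push_cast; ring

def R (k : ℝ) : Set Pl := {p | |p.2| ≤ 1 ∧ ∃ z, |z| ≤ k ∧ p.1 = sigmoid z}

def M (k : ℝ) : Subgroup St where
  carrier := {f | ∀ p ∉ R k, f.1 p = p}
  one_mem' _ _ := rfl
  mul_mem' h1 h2 p h := (congrArg _ (h2 p h)).trans (h1 p h)
  inv_mem' {f} h1 p h := f.1.symm_apply_eq.2 (h1 p h).symm

lemma M_mono {k l : ℝ} (h : k ≤ l) : M k ≤ M l := fun _ hf p hp =>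
  hf p fun ⟨h1, z, h2, h3⟩ => hp ⟨h1, z, h2.trans h, h3⟩

lemma conj_fix {f g : St} {k : ℝ} (hf : f ∈ M k) {p : Pl} (h : g⁻¹.1 p ∉ R k) :
    (g * f * g⁻¹).1 p = p :=
  (congrArg g.1 (hf _ h)).trans (g.1.apply_symm_apply p)

lemma M_conj {f : St} {k : ℝ} (hf : f ∈ M k) (j : ℤ) : T ^ j * f * (T ^ j)⁻¹ ∈ M (k + 2 * |(j : ℝ)|) :=
  fun p hp => conj_fix hf fun ⟨h1, z, h2, h3⟩ => hp <| by
    have := T_pow j z h1
    rw [← h3, Prod.mk.eta] at this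
    rw [← ((T ^ j).1.apply_symm_apply p).symm.trans this |>.symm]
    exact ⟨h1, _, (abs_add_le _ _).trans (by rw [abs_mul, abs_two]; linarith), rfl⟩

lemma M_comm {f g : St} {k : ℝ} (hf : f ∈ M k) (hg : g ∈ M k) {j : ℤ} (hj : k < j) :
    Commute g (T ^ j * f * (T ^ j)⁻¹) := by
  have : Equiv.Perm.Disjoint g.1.toEquiv (T ^ j * f * (T ^ j)⁻¹).1.toEquiv := fun p => by
    by_cases h : p ∈ R k
    · obtain ⟨h1, z, h2, h3⟩ := h
      refine Or.inr (conj_fix hf fun ⟨_, z', k2, k3⟩ => ?_)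
      rw [← zpow_neg, ← Prod.mk.eta (p := p), h3, T_pow _ _ h1, sigmoid_inj] at k3
      rw [abs_le] at h2 k2
      push_cast at k3
      linarith
    · exact Or.inl (hg p h)
  exact Subtype.ext (Homeomorph.ext fun p => Equiv.congr_fun this.commute.eq p)

lemma A_mem (F : ℝ ≃o ℝ) (h : Inv (P cantorSet) F) : A F h ∈ M 1 := fun p hp => by
  refine ef_out _ ((le_total (0 + 1) |p.2|).imp_right fun k => ?_)
  rcases tri p.1 with k' | k' | ⟨z, hz⟩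
  exacts [e_out _ (Or.inl k'), e_out _ (Or.inr k'), by
    rw [← hz, e_sig, X_apply, e_out]
    by_contra h'
    exact hp ⟨by simpa using k, z, by rw [abs_le]; grind, hz.symm⟩]

lemma A_ap (F : ℝ ≃o ℝ) (h : Inv (P cantorSet) F) (y : ℝ) :
    (A F h).1 (sigmoid (sigmoid y), 0) = (sigmoid (sigmoid (F y)), 0) :=
  (ef_in _ (by simp)).trans (by rw [e_sig, X_apply, e_sig])

def G : Subgroup St where
  carrier := {g | ∃ k, ∃ n ∈ M k, ∃ j : ℤ, g = n * T ^ j}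
  one_mem' := ⟨0, 1, one_mem _, 0, by simp⟩
  mul_mem' := by
    rintro _ _ ⟨k, n, hn, j, rfl⟩ ⟨k', n', hn', j', rfl⟩
    exact ⟨_, _, mul_mem (M_mono (le_max_left _ _) hn) (M_mono (le_max_right _ _) (M_conj hn' j)),
      j + j', by group⟩
  inv_mem' := by
    rintro _ ⟨k, n, hn, j, rfl⟩
    exact ⟨_, _, M_conj (inv_mem hn) (-j), -j, by group⟩

def N : Subgroup G where
  carrier := {g | ∃ k, g.1 ∈ M k}
  one_mem' := ⟨0, one_mem _⟩
  mul_mem' := fun ⟨_, h⟩ ⟨_, h'⟩ =>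
    ⟨_, mul_mem (M_mono (le_max_left _ _) h) (M_mono (le_max_right _ _) h')⟩
  inv_mem' := fun ⟨_, h⟩ => ⟨_, inv_mem h⟩

instance : N.Normal := ⟨by
  rintro x ⟨k, hx⟩ ⟨_, k', n, hn, j, rfl⟩
  have h1 := M_mono (le_max_left _ (k + 2 * |(j : ℝ)|)) hn
  refine ⟨max k' (k + 2 * |(j : ℝ)|), ?_⟩
  convert mul_mem (mul_mem h1 (M_mono (le_max_right _ _) (M_conj hx j))) (inv_mem h1) using 1
  simp only [Subgroup.coe_mul, Subgroup.coe_inv]
  group⟩

lemma G_qm {φ : G → ℝ} (h : IsHQM φ) (x y : G) : φ (x * y) = φ x + φ y := by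
  obtain ⟨⟨D, hD⟩, hh⟩ := h
  let t : G := ⟨T, 0, 1, one_mem _, 1, by simp⟩
  refine q_hom hD hh N t ?_ ?_ x y
  · rintro ⟨_, k, n, hn, j, rfl⟩
    exact ⟨⟨n, k, n, hn, 0, by simp⟩, ⟨k, hn⟩, j, rfl⟩
  · rintro x ⟨k, hx⟩ y ⟨k', hy⟩
    obtain ⟨n, hn⟩ := exists_nat_gt (max k k')
    refine q_disp hD hh ((M (max k k')).comap G.subtype) (t ^ n) (fun i z hz w hw => Subtype.ext ?_)
      (M_mono (le_max_left _ _) hx) (M_mono (le_max_right _ _) hy)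
    have := M_comm hz hw (j := (n * (i + 1) : ℕ)) (hn.trans_le (by
      exact_mod_cast Nat.le_mul_of_pos_right n i.succ_pos))
    rw [zpow_natCast, pow_mul] at this
    exact this.eq

noncomputable def ρ : St →* Map ↥Cᶜ :=
  (QuotientGroup.mk' _).comp (MonoidHom.mk'
    (fun f => f.1.subtype fun p => (f.2.1 p).symm.not) fun _ _ => Homeomorph.ext fun _ => rfl)

lemma ends {f : St} (h : ρ f = 1) {c : Pl} (hc : c ∈ C) : f.1 c = c := by
  obtain ⟨F, h0, h1, c1, c2⟩ := (QuotientGroup.eq_one_iff _).1 h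
  have hc' := (f.2.1 c).2 hc
  by_contra hne
  have hx : (f.1 c).1 ≠ c.1 := fun e => hne (Prod.ext e (hc'.1.trans hc.1.symm))
  have hp := abs_pos.2 (sub_ne_zero.2 hx)
  obtain ⟨u, u1, u2, u3⟩ := K_gd.gap (c.1 - |(f.1 c).1 - c.1|) c.1 (by linarith)
  obtain ⟨v, v1, v2, v3⟩ := K_gd.gap c.1 (c.1 + |(f.1 c).1 - c.1|) (by linarith)
  let ψ : Pl → ℝ := fun p => max (max (u - p.1) (p.1 - v)) (|p.2| - 1)
  have cψ : Continuous ψ := by fun_prop
  have hZ : IsCompact {p | ψ p = 0} :=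
    (isCompact_Icc (a := (u, -1)) (b := (v, 1))).of_isClosed_subset
      (isClosed_eq cψ continuous_const) fun p hp => by
        simp only [ψ, mem_ofPred_eq] at hp
        refine ⟨⟨?_, ?_⟩, ?_, ?_⟩ <;> grind
  have hZC : ∀ p, ψ p = 0 → p ∈ Cᶜ := fun p hp k => by
    simp only [ψ, k.1] at hp
    have h1 : p.1 ≠ u := fun e => u3 (e ▸ k.2)
    have h2 : p.1 ≠ v := fun e => v3 (e ▸ k.2)
    grind
  have : CompactSpace {p | ψ p = 0} := isCompact_iff_compactSpace.1 hZ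
  obtain ⟨W, w1, w2, w3⟩ : ∃ W : Set Pl, IsClosed W ∧ c ∉ W ∧
      ∀ s (q : ↥Cᶜ), ψ (F s q) = 0 → q.1 ∈ W := by
    let j : I × {p | ψ p = 0} → I × ↥Cᶜ := fun z => (z.1, ⟨z.2.1, hZC _ z.2.2⟩)
    have cj : Continuous j :=
      continuous_fst.prodMk ((continuous_subtype_val.comp continuous_snd).subtype_mk _)
    refine ⟨_, (isCompact_range ((continuous_subtype_val.comp c2).comp cj)).isClosed, ?_,
      fun s q hs => ⟨(s, ⟨_, hs⟩), congrArg Subtype.val ((F s).symm_apply_apply q)⟩⟩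
    rintro ⟨z, rfl⟩
    exact Subtype.property ((F (j z).1).symm (j z).2) hc
  have tl : Tendsto (fun η : ℝ => (c.1, η)) (𝓝[≠] 0) (𝓝 c) :=
    ((Continuous.prodMk_right c.1).tendsto' 0 c (Prod.ext rfl hc.1.symm)).mono_left nhdsWithin_le_nhds
  have p1 : ψ c < 0 := by simp only [ψ, hc.1]; grind
  have p2 : 0 < ψ (f.1 c) := lt_max_of_lt_left <| by
    rcases abs_cases ((f.1 c).1 - c.1) with k | k
    · exact lt_max_of_lt_right (by linarith [k.1])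
    · exact lt_max_of_lt_left (by linarith [k.1])
  clear_value ψ
  have t1 : ∀ᶠ η in 𝓝[≠] (0 : ℝ), (c.1, η) ∉ W := tl.eventually (w1.isOpen_compl.mem_nhds w2)
  have t2 : ∀ᶠ η in 𝓝[≠] (0 : ℝ), ψ (c.1, η) < 0 :=
    ((cψ.tendsto c).comp tl).eventually (gt_mem_nhds p1)
  have t3 : ∀ᶠ η in 𝓝[≠] (0 : ℝ), 0 < ψ (f.1 (c.1, η)) :=
    (((cψ.comp f.1.continuous).tendsto c).comp tl).eventually (lt_mem_nhds p2)
  obtain ⟨η, e1, e2, e3, e4⟩ := (t1.and (t2.and (t3.and self_mem_nhdsWithin))).exists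
  let q : ↥Cᶜ := ⟨(c.1, η), fun k => e4 k.1⟩
  have q0 : (F 0 q : Pl) = (c.1, η) := by rw [h0, Homeomorph.one_apply]
  have q1 : (F 1 q : Pl) = f.1 (c.1, η) := by rw [h1]; rfl
  obtain ⟨s, hs⟩ := intermediate_value_univ (0 : I) 1 (f := fun s => ψ (F s q))
    (cψ.comp (continuous_subtype_val.comp (c1.comp (Continuous.prodMk_left q))))
    (show (0 : ℝ) ∈ _ from ⟨by rw [q0]; exact e2.le, by rw [q1]; exact e3.le⟩)
  exact e1 (w3 s q hs)

def L : Subgroup St where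
  carrier := {f | ∀ p, (∃ y, f.1 p = (sigmoid (sigmoid y), 0)) ↔ ∃ y, p = (sigmoid (sigmoid y), 0)}
  one_mem' _ := Iff.rfl
  mul_mem' h1 h2 p := (h1 _).trans (h2 p)
  inv_mem' {f} h p := by rw [← h]; simp

lemma nonam : ¬ Amenable (G.map ρ) := by
  rintro ⟨μ, -, h1, h2, h3⟩
  let H0 := (L.map ρ).subgroupOf (G.map ρ)
  let θ : G.map ρ → G.map ρ := fun h => h * (Quotient.mk (QuotientGroup.rightRel H0) h).out⁻¹
  have θ1 : ∀ h, ∃ f ∈ L, ρ f = θ h := fun h =>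
    QuotientGroup.rightRel_apply.1 (Quotient.mk_out (s := QuotientGroup.rightRel H0) h)
  have hc : (sigmoid (sigmoid 0), (0 : ℝ)) ∈ C :=
    ⟨rfl, sig_mem.2 ⟨0, by
      rw [Int.cast_zero, mul_zero, sub_zero]
      exact sig_mem.2 ⟨0, by simpa using zero_mem_cantorSet⟩⟩⟩
  have ex : ∀ h, ∃ y, ∀ f : St, ρ f = θ h →
      f.1 (sigmoid (sigmoid 0), 0) = (sigmoid (sigmoid y), 0) := fun h => by
    obtain ⟨f, k1, k2⟩ := θ1 h
    obtain ⟨y, hy⟩ := (k1 _).2 ⟨0, rfl⟩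
    refine ⟨y, fun f' k => ?_⟩
    rw [← hy]
    exact f.1.symm_apply_eq.1 (ends (f := f⁻¹ * f') (by rw [map_mul, map_inv, k, k2, inv_mul_cancel]) hc)
  choose y hy using ex
  have key : ∀ (F : ℝ ≃o ℝ) (_ : Inv (P cantorSet) F) D, μ (y ⁻¹' (F ⁻¹' D)) = μ (y ⁻¹' D) := by
    intro F hF D
    let a : G.map ρ := ⟨ρ (A F hF), _, ⟨1, _, A_mem F hF, 0, by simp⟩, rfl⟩
    have ha : a ∈ H0 := ⟨_, fun p => ⟨fun ⟨z, hz⟩ => ⟨F.symm z, (A F hF).1.injective (by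
      rw [hz, A_ap, F.apply_symm_apply])⟩, fun ⟨z, hz⟩ => ⟨F z, by rw [hz, A_ap]⟩⟩, rfl⟩
    rw [← h3 a (y ⁻¹' D)]
    congr 1
    ext h
    obtain ⟨f, -, k⟩ := θ1 h
    have e : Quotient.mk (QuotientGroup.rightRel H0) (a * h) = Quotient.mk _ h :=
      Quotient.sound (QuotientGroup.rightRel_apply.2 (by simpa using inv_mem ha))
    have := hy (a * h) (A F hF * f) (by
      simp only [θ, e, map_mul, k, Subgroup.coe_mul, mul_assoc, a])
    rw [Subgroup.coe_mul, Homeomorph.mul_apply, hy h f k, A_ap, Prod.mk.injEq, sigmoid_inj,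
      sigmoid_inj] at this
    simp only [mem_preimage, this.1]
  exact paradox (fun D => μ (y ⁻¹' D)) h1 (fun A B h => h2 _ _ (h.preimage y)) (key γ γ_inv)
    (key τ (τ_inv _))

theorem result : ∃ C : Set (ℝ × ℝ), IsCantor C ∧ ∃ H : Subgroup (Map ↥Cᶜ),
    (∀ h ∈ H, ∃ f : ↥Cᶜ ≃ₜ ↥Cᶜ, (f : Map ↥Cᶜ) = h ∧ ∃ R, ∀ p : ↥Cᶜ, R < ‖p.1‖ → f p = p) ∧
    ¬ Amenable H ∧ ∀ φ : H → ℝ, IsHQM φ → ∀ g h, φ (g * h) = φ g + φ h := by
  refine ⟨C, isCantor, G.map ρ, ?_, nonam, fun φ ⟨⟨D, hD⟩, hh⟩ g h => ?_⟩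
  · rintro _ ⟨f, -, rfl⟩
    exact ⟨_, rfl, f.2.2.imp fun R hR p hp => Subtype.ext (hR _ hp)⟩
  · obtain ⟨x, rfl⟩ := ρ.subgroupMap_surjective G g
    obtain ⟨y, rfl⟩ := ρ.subgroupMap_surjective G h
    rw [← map_mul]
    exact G_qm (φ := fun x => φ (ρ.subgroupMap G x))
      ⟨⟨D, fun _ _ => by simpa only [map_mul] using hD _ _⟩, fun _ _ => by simp only [map_zpow, hh]⟩ x y

end Pool.Agent.Results.MP_ac6992_gt.Lamp
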